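import Pool.Agent.Helper855K.Core

/-!
# MP_af75b4_an: the tubular geometric control condition does not characterise the
`L^p`-Logvinenko-Sereda families for eigenfunctions

`E m` is `ℝ^(m+1)`, `dV m` the Riemannian volume of the unit sphere `S^m`, `IsEigenfunction`,
`tube`, `TGCC` and `IsLS` are as in `Pool.Agent.Helper855K.Defs`, and
`band 2 = {x ∈ S² : |x₀| ≤ 9/10}` is the complement of two small antipodal caps of `S²`.
The eigenfunctions are signed sums of Gaussian beams along a Kakeya family of great circles.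
-/

set_option autoImplicit false

open MeasureTheory Set Filter Topology Pool.Agent.Helper855K

namespace Pool.Agent.Results.MP_af75b4_an.KakeyaBeams

theorem ratio_tendsto {p : ℝ} (hp : 2 < p) {I₁ I₂ : ℕ → ℝ} {a b c : ℝ} (ha : 0 ≤ a)
    (hb : 0 < b) (hc : 0 < c) (h1 : ∀ k, 0 ≤ I₁ k) (h2 : ∀ k, I₁ k ≤ a)
    (h3 : ∀ k : ℕ, b * (c * ((k : ℝ) + 1)) ^ ((p - 2) / 2) ≤ I₂ k) :
    Tendsto (fun k => I₁ k / I₂ k) atTop (𝓝 0) := by
  have hlim : Tendsto (fun k : ℕ => b * (c * ((k : ℝ) + 1)) ^ ((p - 2) / 2)) atTop atTop := by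
    apply Tendsto.const_mul_atTop hb
    refine (tendsto_rpow_atTop (by linarith)).comp ?_
    apply Tendsto.const_mul_atTop hc
    exact tendsto_atTop_add_const_right _ _ tendsto_natCast_atTop_atTop
  have hlim2 : Tendsto (fun k : ℕ => a / (b * (c * ((k : ℝ) + 1)) ^ ((p - 2) / 2))) atTop
      (𝓝 0) := tendsto_const_nhds.div_atTop hlim
  refine squeeze_zero (fun k => ?_) (fun k => ?_) hlim2
  · have h4 : 0 < b * (c * ((k : ℝ) + 1)) ^ ((p - 2) / 2) := by positivity
    exact div_nonneg (h1 k) (h4.le.trans (h3 k))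
  · have h4 : 0 < b * (c * ((k : ℝ) + 1)) ^ ((p - 2) / 2) := by positivity
    exact div_le_div₀ ha (h2 k) h4 (h3 k)

/-- On `S²`, for every exponent `p > 2`, the complement `band 2` of two small antipodal caps (the
same set for all frequencies) satisfies the tubular geometric control condition, but there are
eigenfunctions `e k` of frequencies `lam k → ∞` with
`∫_{band} |e k|^p dV / ∫_{S²} |e k|^p dV → 0`.  In particular this family is not
`L^p`-Logvinenko-Sereda for eigenfunctions.  Since `2 m / (m - 1) = 4` for `m = 2`, the statement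
of Question 1 of the problem fails, already for `m = 2` and every `p` with `2 < p < 4`. -/
theorem result :
    TGCC 2 (fun _ => band 2) ∧
    (∀ p : ℝ, 2 < p →
      (∃ (lam : ℕ → ℝ) (e : ℕ → E 2 → ℂ),
        (∀ k, 1 ≤ lam k) ∧ Tendsto lam atTop atTop ∧
        (∀ k, IsEigenfunction 2 (lam k) (e k)) ∧
        (∀ k, Integrable (fun x => ‖e k x‖ ^ p) (dV 2)) ∧
        (∀ k, 0 < ∫ x, ‖e k x‖ ^ p ∂(dV 2)) ∧
        Tendsto (fun k => (∫ x in band 2, ‖e k x‖ ^ p ∂(dV 2)) / ∫ x, ‖e k x‖ ^ p ∂(dV 2))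
          atTop (𝓝 0)) ∧
      ¬ IsLS 2 p (fun _ => band 2)) ∧
    ¬ (∀ m : ℕ, 2 ≤ m → ∀ p : ℝ, 1 ≤ p → p < 2 * m / (m - 1) → ∀ A : ℝ → Set (E m),
        (∀ lam, MeasurableSet (A lam)) → (∀ lam, A lam ⊆ Metric.sphere 0 1) →
        TGCC m A → IsLS m p A) := by
  have main : ∀ p : ℝ, 2 < p →
      (∃ (lam : ℕ → ℝ) (e : ℕ → E 2 → ℂ),
        (∀ k, 1 ≤ lam k) ∧ Tendsto lam atTop atTop ∧
        (∀ k, IsEigenfunction 2 (lam k) (e k)) ∧
        (∀ k, Integrable (fun x => ‖e k x‖ ^ p) (dV 2)) ∧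
        (∀ k, 0 < ∫ x, ‖e k x‖ ^ p ∂(dV 2)) ∧
        Tendsto (fun k => (∫ x in band 2, ‖e k x‖ ^ p ∂(dV 2)) / ∫ x, ‖e k x‖ ^ p ∂(dV 2))
          atTop (𝓝 0)) ∧
      ¬ IsLS 2 p (fun _ => band 2) := by
    intro p hp
    have hex : ∃ (lam : ℕ → ℝ) (e : ℕ → E 2 → ℂ),
        (∀ k, 1 ≤ lam k) ∧ Tendsto lam atTop atTop ∧
        (∀ k, IsEigenfunction 2 (lam k) (e k)) ∧
        (∀ k, Integrable (fun x => ‖e k x‖ ^ p) (dV 2)) ∧
        (∀ k, 0 < ∫ x, ‖e k x‖ ^ p ∂(dV 2)) ∧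
        Tendsto (fun k => (∫ x in band 2, ‖e k x‖ ^ p ∂(dV 2)) / ∫ x, ‖e k x‖ ^ p ∂(dV 2))
          atTop (𝓝 0) := by
      choose lam h1 h2 e h3 h4 h5 h6 using fun k : ℕ => exists_eigen' k hp
      have hpos : ∀ k : ℕ, 0 <
          3 / 524288 * (3 / 524288 * ((k : ℝ) + 1)) ^ ((p - 2) / 2) := fun k => by positivity
      refine ⟨lam, e, h1, ?_, h4, ?_, fun k => (hpos k).trans_le (h6 k), ?_⟩
      · exact tendsto_atTop_mono (fun k => by have := h2 k; linarith)
          (tendsto_natCast_atTop_atTop (R := ℝ))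
      · intro k
        by_contra hcon
        have h0 : ∫ x, ‖e k x‖ ^ p ∂(dV 2) = 0 := integral_undef hcon
        have := (hpos k).trans_le (h6 k)
        linarith
      · refine ratio_tendsto hp (a := C0 ^ p * (dV 2).real univ) ?_ (b := 3 / 524288)
          (by norm_num) (c := 3 / 524288) (by norm_num) (fun k => ?_) h5 h6
        · have := C0_pos
          positivity
        · exact integral_nonneg fun x => by positivity
    refine ⟨hex, ?_⟩
    rintro ⟨C, hC, hLS⟩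
    obtain ⟨lam, e, h1, -, h3, -, h5, h6⟩ := hex
    obtain ⟨k, hk⟩ := (h6.eventually (gt_mem_nhds hC)).exists
    have h7 := hLS (lam k) (h1 k) (e k) (h3 k)
    rw [div_lt_iff₀ (h5 k)] at hk
    linarith
  refine ⟨tgcc_band 2, main, ?_⟩
  intro hQ
  have h := hQ 2 le_rfl 3 (by norm_num) (by norm_num) (fun _ => band 2)
    (fun _ => band_measurable 2) (fun _ x hx => by
      rw [mem_sphere_zero_iff_norm]; exact hx.1) (tgcc_band 2)
  exact (main 3 (by norm_num)).2 h

end Pool.Agent.Results.MP_af75b4_an.KakeyaBeams
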